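import Pool.Agent.H22.Wm

namespace Pool.Agent.Results.MP_b1ee0a_an.Jordan

open MeasureTheory Set Filter Complex
open scoped ENNReal ComplexOrder ComplexConjugate

/-- the interval `(-A, A)`, `0 < A ≤ ∞` -/
def dom (A : ℝ≥0∞) : Set ℝ := {l | ENNReal.ofReal |l| < A}

/-- the almost periodic polynomial with coefficients `c` -/
noncomputable def poly (c : ℝ →₀ ℂ) (t : ℝ) : ℂ := c.sum fun l a => a * exp (I * l * t)

/-- the functional with characteristic function `f` -/
noncomputable def Phi (f : ℝ → ℂ) (c : ℝ →₀ ℂ) : ℂ := c.sum fun l a => a * f l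

/-- `f ∈ R_A`: the functional is bounded for the sup norm -/
def InR (A : ℝ≥0∞) (f : ℝ → ℂ) : Prop :=
  ∃ C : ℝ, ∀ c : ℝ →₀ ℂ, (c.support : Set ℝ) ⊆ dom A → ∀ M : ℝ, (∀ t, ‖poly c t‖ ≤ M) →
    ‖Phi f c‖ ≤ C * M

/-- `f` is the characteristic function of a (bounded) non-negative functional -/
def InP (A : ℝ≥0∞) (f : ℝ → ℂ) : Prop :=
  InR A f ∧ ∀ c : ℝ →₀ ℂ, (c.support : Set ℝ) ⊆ dom A → (∀ t, 0 ≤ poly c t) → 0 ≤ Phi f c

/-- Lebesgue measurable on `(-A, A)` -/
def Meas (A : ℝ≥0∞) (f : ℝ → ℂ) : Prop := AEMeasurable f (volume.restrict (dom A))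

section proof

open BoundedContinuousFunction Pool.Agent.H22.Wm
open scoped InnerProductSpace

abbrev Al := (Bool × ℝ) →ᵇ ℂ

noncomputable def ex (l : ℝ) : Al :=
  ofNormedAddCommGroup (fun x => exp (I * l * x.2)) (by fun_prop) 1 fun x => by
    rw [mul_assoc, ← ofReal_mul, norm_exp_I_mul_ofReal]

noncomputable def pj (b : Bool) : Al :=
  ofNormedAddCommGroup (fun x => if x.1 = b then 1 else 0)
    ((continuous_of_discreteTopology (f := fun c : Bool => if c = b then (1 : ℂ) else 0)).comp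
      continuous_fst) 1 fun x => by split_ifs <;> simp

lemma ex_apply (l : ℝ) (x) : ex l x = exp (I * l * x.2) := rfl
lemma pj_apply (b : Bool) (x) : pj b x = if x.1 = b then 1 else 0 := rfl

lemma ex_mul (l k : ℝ) : ex l * ex k = ex (l + k) := by
  ext x; rw [mul_apply, ex_apply, ex_apply, ex_apply, ← exp_add]; push_cast; ring_nf

lemma conj_exp (l t : ℝ) : exp (I * (-l : ℝ) * t) = conj (exp (I * l * t)) := by
  rw [← exp_conj]; simp

lemma ex_star (l : ℝ) : star (ex l) = ex (-l) := by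
  ext x; rw [star_apply, ex_apply, ex_apply, conj_exp]; rfl

noncomputable def ev : (ℝ →₀ ℂ) →ₗ[ℂ] Al := Finsupp.linearCombination ℂ ex

lemma Phi_eq (f : ℝ → ℂ) (c : ℝ →₀ ℂ) : Phi f c = Finsupp.linearCombination ℂ f c := rfl

lemma ev_apply (c : ℝ →₀ ℂ) (x) : ev c x = poly c x.2 := by
  simp only [ev, Finsupp.linearCombination_apply, Finsupp.sum, poly, coe_sum, Finset.sum_apply]
  rfl

lemma poly_eq (c : ℝ →₀ ℂ) (t : ℝ) : poly c t = Phi (fun l => exp (I * l * t)) c := rfl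

lemma map_ev (L : Al →ₗ[ℂ] ℂ) (c : ℝ →₀ ℂ) : L (ev c) = Phi (fun l => L (ex l)) c := by
  rw [ev, Finsupp.apply_linearCombination]; rfl

lemma neg_dom {A : ℝ≥0∞} {l : ℝ} (h : l ∈ dom A) : -l ∈ dom A := by
  simpa [dom] using h

lemma re_le {A : ℝ≥0∞} {f : ℝ → ℂ} (hh : ∀ l ∈ dom A, f (-l) = conj (f l)) {C : ℝ}
    (hC : ∀ c : ℝ →₀ ℂ, (c.support : Set ℝ) ⊆ dom A → ∀ M : ℝ, (∀ t, ‖poly c t‖ ≤ M) →
      ‖Phi f c‖ ≤ C * M) (c : ℝ →₀ ℂ) (hc : c ∈ Finsupp.supported ℂ ℂ (dom A)) (M : ℝ)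
    (hM : ∀ t, |(poly c t).re| ≤ M) : (Phi f c).re ≤ C * M := by
  set c' : ℝ →₀ ℂ := ∑ l ∈ c.support, Finsupp.single (-l) (conj (c l)) with hc'
  have h1 : c' ∈ Finsupp.supported ℂ ℂ (dom A) :=
    Submodule.sum_mem _ fun l hl => Finsupp.single_mem_supported _ _ (neg_dom (hc hl))
  have h2 : ∀ g : ℝ → ℂ, (∀ l ∈ dom A, g (-l) = conj (g l)) →
      Phi g ((1 / 2 : ℂ) • (c + c')) = (Phi g c).re := fun g hg => by
    have : Phi g c' = conj (Phi g c) := by
      rw [Phi_eq, hc', map_sum, Phi, Finsupp.sum, map_sum]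
      refine Finset.sum_congr rfl fun l hl => ?_
      rw [Finsupp.linearCombination_single, hg l (hc hl), map_mul, smul_eq_mul]
    rw [Phi_eq, map_smul, map_add, ← Phi_eq, ← Phi_eq, this, add_conj]
    simp
  have h3 := hC _ (Submodule.smul_mem _ (1 / 2 : ℂ) (Submodule.add_mem _ hc h1)) M fun t => by
    rw [poly_eq, h2 _ fun l _ => conj_exp l t, norm_real]; exact hM t
  rw [h2 f hh, norm_real] at h3
  exact (le_abs_self _).trans h3

lemma bdd (p : Al) : BddAbove (range fun x => (p x).re) :=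
  ⟨‖p‖, by rintro _ ⟨x, rfl⟩; exact (re_le_norm _).trans (p.norm_coe_le_norm x)⟩

lemma hb {A : ℝ≥0∞} {f : ℝ → ℂ} (hR : InR A f) (hh : ∀ l ∈ dom A, f (-l) = conj (f l)) :
    ∃ L : Al →ₗ[ℂ] ℂ, (∀ s, 0 ≤ L (star s * s)) ∧
      ∀ l ∈ dom A, L ((pj true - pj false) * ex l) = f l := by
  obtain ⟨C0, hC0⟩ := hR
  set C := max C0 0 with hCd
  have C0' : 0 ≤ C := le_max_right _ _
  have hC : ∀ c : ℝ →₀ ℂ, (c.support : Set ℝ) ⊆ dom A → ∀ M : ℝ, (∀ t, ‖poly c t‖ ≤ M) →
      ‖Phi f c‖ ≤ C * M := fun c hc M hM => (hC0 c hc M hM).trans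
    (mul_le_mul_of_nonneg_right (le_max_left _ _) ((norm_nonneg _).trans (hM 0)))
  set R := Finsupp.supported ℂ ℂ (dom A)
  set T : R →ₗ[ℝ] Al := (((LinearMap.mulLeft ℂ (pj true - pj false)).comp ev).comp
    R.subtype).restrictScalars ℝ with hT
  set φ : R →ₗ[ℝ] ℝ := reLm.comp (((Finsupp.linearCombination ℂ f).comp R.subtype).restrictScalars ℝ)
  set N : Al → ℝ := fun p => C * ⨆ x, (p x).re with hN
  have hφ : ∀ c, φ c ≤ N (T c) := fun c => by
    refine re_le hh hC c.1 c.2 _ fun t => abs_le.2 ⟨neg_le.1 ?_, ?_⟩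
    · refine le_trans (le_of_eq ?_) (le_ciSup (bdd (T c)) (false, t))
      show _ = (((pj true - pj false) * ev c.1) (false, t)).re
      simp [pj_apply, ev_apply]
    · refine le_trans (le_of_eq ?_) (le_ciSup (bdd (T c)) (true, t))
      show _ = (((pj true - pj false) * ev c.1) (true, t)).re
      simp [pj_apply, ev_apply]
  have N0 : N 0 = 0 := by simp [hN]
  have hk : ∀ c, T c = 0 → φ c = 0 := fun c h => by
    have h1 := hφ c
    have h2 := hφ (-c)
    rw [map_neg, map_neg, h, neg_zero, N0] at h2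
    rw [h, N0] at h1
    linarith
  obtain ⟨σ, hσ⟩ := T.rangeRestrict.exists_rightInverse_of_surjective T.range_rangeRestrict
  have hσ' : ∀ y : T.range, T (σ y) = y := fun y =>
    congrArg Subtype.val (LinearMap.congr_fun hσ y)
  obtain ⟨g, hg1, hg2⟩ := exists_extension_of_le_sublinear ⟨T.range, φ.comp σ⟩ N
    (fun c hc p => by
      simp only [hN, BoundedContinuousFunction.coe_smul, real_smul, re_ofReal_mul]
      rw [← Real.mul_iSup_of_nonneg hc.le]; ring)
    (fun p q => by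
      simp only [hN]
      rw [← mul_add]
      refine mul_le_mul_of_nonneg_left (ciSup_le fun x => ?_) C0'
      rw [BoundedContinuousFunction.add_apply, add_re]
      exact add_le_add (le_ciSup (bdd p) x) (le_ciSup (bdd q) x))
    (fun y => by have := hφ (σ y); rwa [hσ'] at this)
  have hgT : ∀ c, g (T c) = φ c := fun c => by
    refine (hg1 ⟨T c, c, rfl⟩).trans ?_
    have := hk (σ ⟨T c, c, rfl⟩ - c) (by rw [map_sub, hσ', sub_self])
    rwa [map_sub, sub_eq_zero] at this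
  have hneg : ∀ p : Al, (∀ x, (p x).re ≤ 0) → g p ≤ 0 := fun p hp =>
    (hg2 p).trans (mul_nonpos_of_nonneg_of_nonpos C0' (ciSup_le hp))
  refine ⟨Module.Dual.extendRCLike (𝕜 := ℂ) g, fun s => ?_, fun l hl => ?_⟩
  · have e : ∀ x, (star s * s) x = (normSq (s x) : ℂ) := fun x => by
      rw [mul_apply, star_apply, normSq_eq_conj_mul_self]; rfl
    have h1 := hneg (-(star s * s)) fun x => by
      rw [BoundedContinuousFunction.neg_apply, e]; simpa using normSq_nonneg _
    have h2 := hneg (I • (star s * s)) fun x => by simp [e]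
    have h3 := hneg (-(I • (star s * s))) fun x => by simp [e]
    rw [map_neg] at h1 h3
    have h4 : g (I • (star s * s)) = 0 := by linarith
    rw [Module.Dual.extendRCLike_apply, RCLike.I_to_complex, h4]
    simpa using h1
  · have h1 := hgT ⟨Finsupp.single l 1, Finsupp.single_mem_supported _ _ hl⟩
    have h2 := hgT ⟨Finsupp.single l I, Finsupp.single_mem_supported _ _ hl⟩
    have e1 : T ⟨Finsupp.single l 1, Finsupp.single_mem_supported _ _ hl⟩ =
        (pj true - pj false) * ex l := by simp [hT, ev]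
    have e2 : T ⟨Finsupp.single l I, Finsupp.single_mem_supported _ _ hl⟩ =
        I • ((pj true - pj false) * ex l) := by simp [hT, ev]
    rw [e1] at h1; rw [e2] at h2
    rw [Module.Dual.extendRCLike_apply, RCLike.I_to_complex, h1, h2]
    apply Complex.ext <;> simp [φ]

lemma sqrt_ex (q : Al) (h : ∀ x, 0 ≤ q x) : ∃ s : Al, q = star s * s := by
  refine ⟨ofNormedAddCommGroup (fun x => (√(q x).re : ℂ)) (by fun_prop) (√‖q‖) fun x => ?_, ?_⟩
  · rw [norm_real, Real.norm_eq_abs, abs_of_nonneg (Real.sqrt_nonneg _)]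
    exact Real.sqrt_le_sqrt ((re_le_norm _).trans (q.norm_coe_le_norm x))
  · ext x
    rw [mul_apply, star_apply]
    show q x = conj (√(q x).re : ℂ) * (√(q x).re : ℂ)
    rw [conj_ofReal, ← ofReal_mul, Real.mul_self_sqrt (h x).1]
    exact Complex.ext rfl (by simpa using (h x).2.symm)

end proof

open Pool.Agent.H22.Wm in
open scoped InnerProductSpace in
theorem result (A : ℝ≥0∞) (_hA : 0 < A) (f : ℝ → ℂ) (hR : InR A f) (hm : Meas A f)
    (hh : ∀ l ∈ dom A, f (-l) = conj (f l)) :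
    ∃ fp fm : ℝ → ℂ, InP A fp ∧ InP A fm ∧ Meas A fp ∧ Meas A fm ∧
      ∀ l ∈ dom A, f l = fp l - fm l := by
  obtain ⟨L, hL, hf⟩ := hb hR hh
  let : PartialOrder Al := CStarAlgebra.spectralOrder Al
  have : StarOrderedRing Al := CStarAlgebra.spectralOrderedRing Al
  set ω : Al →ₚ[ℂ] ℂ := PositiveLinearMap.mk₀ L fun a ha => by
    obtain ⟨b, rfl⟩ := CStarAlgebra.nonneg_iff_eq_star_mul_self.1 ha
    exact hL b
  set π := ω.gnsStarAlgHom with hπ
  set ξ : ω.GNS := ((ω.toPreGNS 1 : ω.PreGNS) : ω.GNS) with hξ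
  have hω : ∀ a, ⟪ξ, π a ξ⟫_ℂ = L a := fun a => by
    have : π a ξ = ((ω.leftMulMapPreGNS a (ω.toPreGNS 1) : ω.PreGNS) : ω.GNS) :=
      ω.gnsNonUnitalStarAlgHom_apply_coe
    rw [this, hξ, UniformSpace.Completion.inner_coe, ω.preGNS_inner_def]
    simp
    rfl
  have hadj : ∀ a u v, ⟪π a u, v⟫_ℂ = ⟪u, π (star a) v⟫_ℂ := fun a u v => by
    rw [map_star, ContinuousLinearMap.star_eq_adjoint, ContinuousLinearMap.adjoint_inner_right]
  have hmul : ∀ a b u, π a (π b u) = π (a * b) u := fun a b u => by rw [map_mul]; rfl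
  set K : Submodule ℂ ω.GNS := ⨅ h : ω.GNS, ms fun l => π (ex (-l)) h with hK
  have memK : ∀ v, v ∈ K ↔ ∀ h, AEMeasurable fun l => ⟪h, π (ex l) v⟫_ℂ := fun v => by
    rw [hK, Submodule.mem_iInf]
    refine forall_congr' fun h => ?_
    show AEMeasurable (fun l => ⟪π (ex (-l)) h, v⟫_ℂ) ↔ _
    simp only [hadj, ex_star, neg_neg]
  have Kc : IsClosed (K : Set ω.GNS) := by
    rw [hK, Submodule.coe_iInf]
    exact isClosed_iInter fun h => meas_closed _
  have := Kc.completeSpace_coe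
  have inv : ∀ a, ∀ v ∈ K, π a v ∈ K := fun a v hv => (memK _).2 fun h => by
    have := (memK v).1 hv (π (star a) h)
    simpa only [hadj, star_star, hmul, mul_comm a] using this
  set ξ0 := K.starProjection ξ with hξ0
  have m0 : ξ0 ∈ K := Submodule.starProjection_apply_mem K ξ
  have o1 : ∀ v ∈ K, ⟪ξ - ξ0, v⟫_ℂ = 0 := fun v hv => Submodule.starProjection_inner_eq_zero ξ v hv
  have split : ∀ a, L a = ⟪ξ0, π a ξ0⟫_ℂ + ⟪ξ - ξ0, π a (ξ - ξ0)⟫_ℂ := fun a => by
    have h1 := o1 _ (inv a _ m0)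
    have h2 := inner_eq_zero_symm.1 (o1 _ (inv (star a) _ m0))
    rw [hadj, star_star] at h2
    rw [← hω]
    simp only [map_sub, inner_sub_left, inner_sub_right] at h1 h2 ⊢
    linear_combination h1 + h2
  set F : Bool → ℝ → ℂ := fun b l => ⟪ξ0, π (pj b * ex l) ξ0⟫_ℂ with hF
  have Fm : ∀ b, AEMeasurable (F b) := fun b => by
    have := (memK _).1 (inv (pj b) _ m0) ξ0
    simpa only [hmul, mul_comm _ (pj b)] using this
  have FP : ∀ b c, Phi (F b) c = ⟪ξ0, π (pj b * ev c) ξ0⟫_ℂ := fun b c => by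
    simp only [Phi, ev, Finsupp.linearCombination_apply, Finsupp.sum, Finset.mul_sum, map_sum,
      _root_.sum_apply, inner_sum, mul_smul_comm, map_smul,
      _root_.smul_apply, inner_smul_right, hF]
  have Fp : ∀ b, InP A (F b) := fun b => by
    refine ⟨⟨‖ξ0‖ * ‖ξ0‖, fun c _ M hM => ?_⟩, fun c _ hc => ?_⟩
    · have M0 : 0 ≤ M := (norm_nonneg _).trans (hM 0)
      have h1 : ‖pj b * ev c‖ ≤ M := (BoundedContinuousFunction.norm_le M0).2 fun x => by
        rw [BoundedContinuousFunction.mul_apply, pj_apply, ev_apply]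
        split_ifs
        · simpa using hM _
        · simpa using M0
      rw [FP, mul_assoc]
      refine (norm_inner_le_norm _ _).trans (mul_le_mul_of_nonneg_left
        (((π _).le_opNorm _).trans ?_) (norm_nonneg _))
      rw [mul_comm]
      exact mul_le_mul_of_nonneg_left ((NonUnitalStarAlgHom.norm_apply_le π _).trans h1)
        (norm_nonneg _)
    · obtain ⟨s, hs⟩ := sqrt_ex (pj b * ev c) fun x => by
        rw [BoundedContinuousFunction.mul_apply, pj_apply, ev_apply]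
        split_ifs
        · simpa using hc _
        · simp
      rw [FP, hs, ← hmul, ← hadj, inner_self_eq_norm_sq_to_K]
      exact pow_nonneg (zero_le_real.2 (norm_nonneg (π s ξ0))) 2
  have hg : ∀ l ∈ dom A, ⟪ξ - ξ0, π (ex l) (π (pj true - pj false) (ξ - ξ0))⟫_ℂ =
      f l - (F true l - F false l) := fun l hl => by
    rw [← hf l hl, split, hmul, mul_comm (ex l)]
    simp only [hF, sub_mul, map_sub π, _root_.sub_apply, inner_sub_right ξ0]
    ring
  have hI : IsOpen (dom A) :=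
    isOpen_lt (ENNReal.continuous_ofReal.comp continuous_abs) continuous_const
  refine ⟨F true, F false, Fp _, Fp _, (Fm _).restrict, (Fm _).restrict, fun l hl => ?_⟩
  rw [← sub_eq_zero, ← hg l hl]
  refine key (fun l => π (ex l)) (fun l u v => by rw [hadj, ex_star])
    (fun l k u => by rw [hmul, ex_mul]) _ _
    (fun v hv => inner_eq_zero_symm.1 (o1 v ((memK v).2 hv))) (dom A) hI ?_ l hl
  exact (AEMeasurable.sub hm ((Fm _).restrict.sub (Fm _).restrict)).congr
    ((ae_restrict_iff' hI.measurableSet).2 (Eventually.of_forall fun l hl => (hg l hl).symm))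

end Pool.Agent.Results.MP_b1ee0a_an.Jordan
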